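import Pool.Agent.K3h24.Loz.C4d

/-!
# Brick C4bc: the rows of the region; the rows below the line
-/

set_option autoImplicit false
set_option linter.unusedVariables false

namespace Pool.Agent.K3h24.Loz

open Finset Pool.Agent.K3h88.Loz

lemma lobe_even {N m n x : ℕ} (a : ℤ) :
    Lobe (fun i => Even i) N m n x a ↔ a ∈ Us N m n x := by
  unfold Lobe Us
  simp only [mem_union, mem_image, mem_filter, mem_range]
  constructor
  · rintro (⟨i, h1, h2, h3⟩ | ⟨i, h1, h2, h3⟩)
    · exact Or.inl ⟨i, ⟨h1, h2⟩, h3.symm⟩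
    · exact Or.inr ⟨i, ⟨h1, h2⟩, h3.symm⟩
  · rintro (⟨i, ⟨h1, h2⟩, h3⟩ | ⟨i, ⟨h1, h2⟩, h3⟩)
    · exact Or.inl ⟨i, h1, h2, h3.symm⟩
    · exact Or.inr ⟨i, h1, h2, h3.symm⟩

lemma lobe_odd {N m n x : ℕ} (a : ℤ) :
    Lobe (fun i => Odd i) N m n x a ↔ a ∈ Ds N m n x := by
  unfold Lobe Ds
  simp only [mem_union, mem_image, mem_filter, mem_range]
  constructor
  · rintro (⟨i, h1, h2, h3⟩ | ⟨i, h1, h2, h3⟩)
    · exact Or.inl ⟨i, ⟨h1, h2⟩, h3.symm⟩
    · exact Or.inr ⟨i, ⟨h1, h2⟩, h3.symm⟩
  · rintro (⟨i, ⟨h1, h2⟩, h3⟩ | ⟨i, ⟨h1, h2⟩, h3⟩)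
    · exact Or.inl ⟨i, h1, h2, h3.symm⟩
    · exact Or.inr ⟨i, h1, h2, h3.symm⟩

lemma mem_upRow {N m n x k : ℕ} (a : ℤ) : a ∈ upRow N m n x k ↔
    ((k < side N m n ∧ (side N m n : ℤ) - k ≤ a ∧ a < 2 * (side N m n : ℤ)) ∨
      (side N m n ≤ k ∧ 0 ≤ a ∧ a < 3 * (side N m n : ℤ) - k)) ∧
      ¬ (k = side N m n + x ∧ a ∈ Us N m n x) := by
  unfold upRow
  split_ifs with h1 h2
  · rw [mem_Ico]
    constructor
    · rintro ⟨h, h'⟩
      exact ⟨Or.inl ⟨h1, h, h'⟩, by omega⟩
    · rintro ⟨h | h, h'⟩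
      · exact h.2
      · omega
  · rw [mem_sdiff, mem_Ico]
    constructor
    · rintro ⟨⟨h, h'⟩, h''⟩
      exact ⟨Or.inr ⟨by omega, h, h'⟩, fun hh => h'' hh.2⟩
    · rintro ⟨h | h, h'⟩
      · omega
      · exact ⟨h.2, fun hh => h' ⟨h2, hh⟩⟩
  · rw [mem_Ico]
    constructor
    · rintro ⟨h, h'⟩
      exact ⟨Or.inr ⟨by omega, h, h'⟩, fun hh => h2 hh.1⟩
    · rintro ⟨h | h, h'⟩
      · omega
      · exact h.2

lemma mem_dnRow {N m n x k : ℕ} (a : ℤ) : a ∈ dnRow N m n x k ↔
    ((k < side N m n ∧ (side N m n : ℤ) - k - 1 ≤ a ∧ a < 2 * (side N m n : ℤ)) ∨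
      (side N m n ≤ k ∧ 0 ≤ a ∧ a < 3 * (side N m n : ℤ) - k - 1)) ∧
      ¬ (k + 1 = side N m n + x ∧ a ∈ Ds N m n x) := by
  unfold dnRow
  rw [mem_sdiff]
  refine and_congr ?_ ?_
  · split_ifs with h1
    · rw [mem_Ico]
      constructor
      · rintro ⟨h, h'⟩
        exact Or.inl ⟨h1, h, h'⟩
      · rintro (h | h)
        · exact h.2
        · omega
    · rw [mem_Ico]
      constructor
      · rintro ⟨h, h'⟩
        exact Or.inr ⟨by omega, h, h'⟩
      · rintro (h | h)
        · omega
        · exact h.2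
  · split_ifs with h1
    · simp [h1]
    · simp [h1]

theorem c4b : StmC4b := by
  intro N m n x hm hn hx
  constructor
  · rintro ⟨a, y⟩
    unfold upR HexUp HexPt
    simp only [Set.mem_ofPred_eq, lobe_even]
    constructor
    · rintro ⟨h1, h2⟩
      obtain ⟨k, hk⟩ := Int.eq_ofNat_of_zero_le (show 0 ≤ y + (side N m n : ℤ) by omega)
      have hk' : y + (side N m n : ℤ) = (k : ℤ) := hk
      refine ⟨k, by omega, by omega, ?_⟩
      rw [mem_upRow]
      refine ⟨?_, fun hh => h2 ⟨by omega, hh.2⟩⟩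
      rcases Nat.lt_or_ge k (side N m n) with h | h
      · left
        omega
      · right
        omega
    · rintro ⟨k, h1, h2, h3⟩
      rw [mem_upRow] at h3
      refine ⟨by omega, fun hh => h3.2 ⟨by omega, hh.2⟩⟩
  · rintro ⟨a, y⟩
    unfold dnR HexDn HexPt
    simp only [Set.mem_ofPred_eq, lobe_odd]
    constructor
    · rintro ⟨h1, h2⟩
      obtain ⟨k, hk⟩ := Int.eq_ofNat_of_zero_le (show 0 ≤ y + (side N m n : ℤ) by omega)
      have hk' : y + (side N m n : ℤ) = (k : ℤ) := hk
      refine ⟨k, by omega, by omega, ?_⟩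
      rw [mem_dnRow]
      refine ⟨?_, fun hh => h2 ⟨by omega, hh.2⟩⟩
      rcases Nat.lt_or_ge k (side N m n) with h | h
      · left
        omega
      · right
        omega
    · rintro ⟨k, h1, h2, h3⟩
      rw [mem_dnRow] at h3
      refine ⟨by omega, fun hh => h3.2 ⟨by omega, hh.2⟩⟩

/-! ### Shifts -/

lemma vd_shift (X : Finset ℤ) (c : ℤ) : vd (X.image (· + c)) = vd X := by
  unfold vd
  symm
  refine prod_bij (fun p _ => (p.1 + c, p.2 + c)) ?_ ?_ ?_ ?_
  · rintro ⟨a, b⟩ h
    simp only [mem_filter, mem_product, mem_image] at h ⊢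
    exact ⟨⟨⟨a, h.1.1, rfl⟩, ⟨b, h.1.2, rfl⟩⟩, by omega⟩
  · rintro ⟨a, b⟩ _ ⟨a', b'⟩ _ h
    simp only [Prod.mk.injEq] at h ⊢
    omega
  · rintro ⟨a, b⟩ h
    simp only [mem_filter, mem_product, mem_image] at h
    obtain ⟨⟨⟨a', ha, rfl⟩, ⟨b', hb, rfl⟩⟩, hab⟩ := h
    exact ⟨(a', b'), by simp only [mem_filter, mem_product]; exact ⟨⟨ha, hb⟩, by omega⟩, rfl⟩
  · rintro ⟨a, b⟩ _
    push_cast
    ring

lemma tt_shift (X : Finset ℤ) (c : ℤ) : tt (X.image (· + c)) = tt X := by
  unfold tt
  rw [vd_shift, card_image_of_injective _ (add_left_injective c)]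

lemma cnt_shift (X : Finset ℤ) (c t : ℤ) : cnt (X.image (· + c)) t = cnt X (t - c) := by
  unfold cnt
  rw [filter_image, card_image_of_injective _ (add_left_injective c)]
  congr 1
  ext a
  simp only [mem_filter]
  constructor
  · rintro ⟨h, h'⟩
    exact ⟨h, by omega⟩
  · rintro ⟨h, h'⟩
    exact ⟨h, by omega⟩

lemma cnt_Ico' (c b t : ℤ) (h : c ≤ b) : (cnt (Ico c b) t : ℤ) = max 0 (min t b - c) := by
  unfold cnt
  have : (Ico c b).filter (fun a => a < t) = Ico c (min t b) := by
    ext a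
    simp only [mem_filter, mem_Ico, lt_min_iff]
    tauto
  rw [this, Int.card_Ico]
  omega

/-- the row condition for the growing rows (below the horizontal diagonal) -/
lemma rowOK_iff' {c b : ℤ} (hc : c ≤ b) {S Q : Finset ℤ} (hS : S ⊆ Ico c b)
    (hQ : Q ⊆ Ico (c - 1) b) :
    rowOK (Ico c b \ S) (Ico (c - 1) b \ Q) ↔ IL (S.image (· + (-1))) Q := by
  have cS := card_sdiff_add_card_eq_card hS
  have cQ := card_sdiff_add_card_eq_card hQ
  rw [Int.card_Ico] at cS cQ
  have key : ∀ t : ℤ, (cnt (Ico c b \ S) t + cnt S t : ℤ) = max 0 (min t b - c) := by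
    intro t
    rw [← cnt_Ico' c b t hc, ← cnt_sdiff hS]
    push_cast
    rfl
  have key2 : ∀ t : ℤ, (cnt (Ico (c - 1) b \ Q) t + cnt Q t : ℤ) =
      max 0 (min t b - (c - 1)) := by
    intro t
    rw [← cnt_Ico' (c - 1) b t (by omega), ← cnt_sdiff hQ]
    push_cast
    rfl
  have hS0 : ∀ t ≤ c, cnt S t = 0 := fun t ht => cnt_zero fun a ha => by
    have := mem_Ico.1 (hS ha); omega
  have hQ0 : ∀ t ≤ c - 1, cnt Q t = 0 := fun t ht => cnt_zero fun a ha => by
    have := mem_Ico.1 (hQ ha); omega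
  have hS1 : ∀ t, b ≤ t → cnt S t = S.card := fun t ht => cnt_card fun a ha => by
    have := mem_Ico.1 (hS ha); omega
  have hQ1 : ∀ t, b ≤ t → cnt Q t = Q.card := fun t ht => cnt_card fun a ha => by
    have := mem_Ico.1 (hQ ha); omega
  have hcS : (S.image (· + (-1))).card = S.card :=
    card_image_of_injective _ (add_left_injective (-1))
  have hsh : ∀ t, cnt (S.image (· + (-1))) t = cnt S (t + 1) := by
    intro t
    rw [cnt_shift]
    congr 1
  have hQst : ∀ t, cnt Q (t + 1) ≤ cnt Q t + 1 := by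
    intro t
    unfold cnt
    have : Q.filter (fun a => a < t + 1) ⊆ insert t (Q.filter (fun a => a < t)) := by
      intro a ha
      simp only [mem_filter, mem_insert] at ha ⊢
      by_cases h : a = t
      · exact Or.inl h
      · exact Or.inr ⟨ha.1, by omega⟩
    exact (card_le_card this).trans (card_insert_le _ _)
  unfold rowOK IL
  rw [hcS]
  simp only [hsh]
  constructor
  · rintro ⟨h1, h2⟩
    have hc' : S.card + 1 = Q.card := by omega
    refine ⟨hc', fun t => ?_⟩
    have a1 := key t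
    have a2 := key2 t
    have a3 := key (t + 1)
    have a4 := key2 (t + 1)
    have := h2 t
    have := h2 (t + 1)
    have := hQst t
    rcases le_or_gt t (c - 1) with ht | ht
    · have b1 := hS0 t (by omega)
      have b2 := hQ0 t (by omega)
      have b3 := hS0 (t + 1) (by omega)
      omega
    · rcases le_or_gt b t with ht2 | ht2
      · have b1 := hS1 t (by omega)
        have b2 := hQ1 t (by omega)
        have b3 := hS1 (t + 1) (by omega)
        omega
      · omega
  · rintro ⟨h1, h2⟩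
    refine ⟨by omega, fun t => ?_⟩
    have a1 := key t
    have a2 := key2 t
    have a3 := key (t + 1)
    have := h2 t
    have h3 := h2 (t - 1)
    rw [show t - 1 + 1 = t by ring] at h3
    rcases le_or_gt t (c - 1) with ht | ht
    · have b1 := hS0 t (by omega)
      have b2 := hQ0 t (by omega)
      have b3 := hS0 (t + 1) (by omega)
      omega
    · rcases le_or_gt b t with ht2 | ht2
      · have b1 := hS1 t (by omega)
        have b2 := hQ1 t (by omega)
        have b3 := hS1 (t + 1) (by omega)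
        omega
      · omega

/-! ### Full rows -/

/-- up-pointing triangles of row `k` of the hexagon -/
noncomputable def upF (L k : ℕ) : Finset ℤ := if k < L then Ico ((L : ℤ) - k) (2 * L) else Ico 0 (3 * (L : ℤ) - k)

/-- down-pointing triangles of row `k` of the hexagon -/
noncomputable def dnF (L k : ℕ) : Finset ℤ :=
  if k < L then Ico ((L : ℤ) - k - 1) (2 * L) else Ico 0 (3 * (L : ℤ) - k - 1)

open Classical in
lemma step1 (h1 : StmC1) (L k : ℕ) (hk : k ≤ L) (Q : Finset ℤ) (hQ : Q ⊆ Ico ((L : ℤ) - k) (2 * L))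
    (hc : Q.card = k) : (chains (upF L) (dnF L) k Q : ℝ) = tt Q := by
  induction k generalizing Q with
  | zero =>
    rw [card_eq_zero] at hc
    subst hc
    simp [chains, tt, vd, sf]
  | succ k ih =>
    have hup : upF L k = Ico ((L : ℤ) - k) (2 * L) := by unfold upF; rw [if_pos (by omega)]
    have hdn : dnF L k = Ico ((L : ℤ) - k - 1) (2 * L) := by unfold dnF; rw [if_pos (by omega)]
    have hQ' : Q ⊆ Ico ((L : ℤ) - k - 1) (2 * L) := by
      rw [show (L : ℤ) - k - 1 = L - (k + 1 : ℕ) by push_cast; ring]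
      exact hQ
    rw [chains, if_pos (by rw [hdn]; exact hQ'), hup, hdn]
    push_cast
    rw [h1 ((L : ℤ) - k - 1) (2 * L) Q hQ' (card_pos.1 (by omega))]
    refine sum_bij' (fun S _ => S.image (· + (-1))) (fun Y _ => Y.image (· + 1)) ?_ ?_ ?_ ?_ ?_
    · intro S hS
      rw [mem_filter, mem_powerset] at hS ⊢
      refine ⟨?_, (rowOK_iff' (by omega) hS.1 hQ').1 hS.2⟩
      intro a ha
      obtain ⟨b, hb, rfl⟩ := mem_image.1 ha
      have := mem_Ico.1 (hS.1 hb)
      rw [mem_Ico]
      omega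
    · intro Y hY
      rw [mem_filter, mem_powerset] at hY ⊢
      have hs : Y.image (· + 1) ⊆ Ico ((L : ℤ) - k) (2 * L) := by
        intro a ha
        obtain ⟨b, hb, rfl⟩ := mem_image.1 ha
        have := mem_Ico.1 (hY.1 hb)
        rw [mem_Ico]
        omega
      refine ⟨hs, (rowOK_iff' (by omega) hs hQ').2 ?_⟩
      rw [image_image]
      have : ((fun x : ℤ => x + (-1)) ∘ fun x => x + 1) = id := by
        ext x; simp
      rw [this, image_id]
      exact hY.2
    · intro S _
      rw [image_image]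
      have : ((fun x : ℤ => x + 1) ∘ fun x => x + (-1)) = id := by
        ext x; simp
      rw [this, image_id]
    · intro S _
      rw [image_image]
      have : ((fun x : ℤ => x + (-1)) ∘ fun x => x + 1) = id := by
        ext x; simp
      rw [this, image_id]
    · intro S hS
      rw [mem_filter, mem_powerset] at hS
      rw [tt_shift]
      have hil := (rowOK_iff' (by omega) hS.1 hQ').1 hS.2
      have hcS : (S.image (· + (-1))).card = S.card :=
        card_image_of_injective _ (add_left_injective (-1))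
      have := hil.1
      exact ih (by omega) S hS.1 (by omega)

open Classical in
lemma step2 (h1 : StmC1) (h2 : StmC2) (L y : ℕ) (hy : y ≤ L) (Q : Finset ℤ)
    (hQ : Q ⊆ Ico 0 (2 * (L : ℤ) - y)) (hc : Q.card = L - y) :
    (chains (upF L) (dnF L) (L + y) Q : ℝ) =
      tt (Ico (-(y : ℤ)) 0 ∪ Q ∪ Ico (2 * (L : ℤ) - y) (2 * L)) := by
  induction y generalizing Q with
  | zero =>
    rw [add_zero, step1 h1 L L le_rfl Q (by simpa using hQ) (by simpa using hc)]
    simp
  | succ y ih =>
    have hup : upF L (L + y) = Ico 0 (2 * (L : ℤ) - y - 1 + 1) := by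
      unfold upF; rw [if_neg (by omega)]; congr 1; push_cast; ring
    have hdn : dnF L (L + y) = Ico 0 (2 * (L : ℤ) - y - 1) := by
      unfold dnF; rw [if_neg (by omega)]; congr 1; push_cast; ring
    have hQ' : Q ⊆ Ico 0 (2 * (L : ℤ) - y - 1) := by
      rw [show 2 * (L : ℤ) - y - 1 = 2 * (L : ℤ) - (y + 1 : ℕ) by push_cast; ring]
      exact hQ
    rw [← add_assoc, chains, if_pos (by rw [hdn]; exact hQ'), hup, hdn]
    push_cast
    have := h2 y y 0 (2 * (L : ℤ) - y - 1) Q hQ' (by omega)
    rw [show (-((y : ℤ) + 1)) = 0 - (y + 1) by ring,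
      show 2 * (L : ℤ) - (y + 1) = 2 * (L : ℤ) - y - 1 by ring,
      show 2 * (L : ℤ) = 2 * (L : ℤ) - y - 1 + (y + 1) by ring]
    rw [show 2 * (L : ℤ) - y - 1 + (y + 1) - y - 1 = 2 * (L : ℤ) - y - 1 by ring, this]
    refine sum_congr ?_ ?_
    · ext S
      rw [mem_filter, mem_filter, mem_powerset]
      refine and_congr_right fun hS => ?_
      exact rowOK_iff (by omega) hS hQ'
    · intro S hS
      rw [mem_filter, mem_powerset] at hS
      rw [ih (by omega) S (by
        have h := hS.1
        rwa [show 2 * (L : ℤ) - y - 1 + 1 = 2 * (L : ℤ) - y by ring] at h) (by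
        have := hS.2.1
        omega)]
      rw [show (0 - (y : ℤ)) = -y by ring, show 2 * (L : ℤ) - y - 1 + 1 = 2 * (L : ℤ) - y by ring,
        show 2 * (L : ℤ) - y + y = 2 * L by ring]

section

variable {N m n x : ℕ}

lemma upRow_eq {k : ℕ} (hk : k < side N m n + x) : upRow N m n x k = upF (side N m n) k := by
  unfold upRow upF
  split_ifs with h1 h2
  · rfl
  · omega
  · rfl

lemma dnRow_eq {k : ℕ} (hk : k + 1 < side N m n + x) : dnRow N m n x k = dnF (side N m n) k := by
  unfold dnRow dnF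
  rw [if_neg (show ¬ k + 1 = side N m n + x by omega), sdiff_empty]

lemma dnRow_eq' {k : ℕ} (hk : k + 1 = side N m n + x) :
    dnRow N m n x k = dnF (side N m n) k \ Ds N m n x := by
  unfold dnRow dnF
  rw [if_pos hk]

lemma chains_eq {k : ℕ} (hk : k < side N m n + x) (Q : Finset ℤ) :
    chains (upRow N m n x) (dnRow N m n x) k Q =
      chains (upF (side N m n)) (dnF (side N m n)) k Q := by
  induction k generalizing Q with
  | zero => rfl
  | succ k ih =>
    rw [chains, chains, upRow_eq (by omega), dnRow_eq hk]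
    split_ifs with h
    · refine sum_congr rfl fun S _ => ih (by omega) S
    · rfl

lemma Ds_sub (hm : Even m) (hn : Even n) (hx : x ≤ N) :
    Ds N m n x ⊆ Ico 0 (2 * (side N m n : ℤ) - x) := by
  intro a ha
  obtain ⟨m', rfl⟩ := hm
  obtain ⟨n', rfl⟩ := hn
  have hs : (side N (m' + m') (n' + n') : ℤ) = N + m' + n' := by
    unfold side; omega
  simp only [Ds, mem_union, mem_image, mem_filter, mem_range] at ha
  rw [mem_Ico]
  rw [hs] at *
  rcases ha with ⟨i, hi, rfl⟩ | ⟨i, hi, rfl⟩ <;> omega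

lemma card_odd (k : ℕ) : ((range (k + k)).filter (fun i => Odd i)).card = k := by
  induction k with
  | zero => simp
  | succ k ih =>
    rw [show k + 1 + (k + 1) = (k + k) + 1 + 1 by ring, range_add_one, range_add_one,
      filter_insert, filter_insert, if_pos (by simp [parity_simps]), if_neg (by simp),
      card_insert_of_notMem (by simp), ih]

lemma Ds_card (hm : Even m) (hn : Even n) (hx : x ≤ N) : (Ds N m n x).card = (m + n) / 2 := by
  obtain ⟨m', rfl⟩ := hm
  obtain ⟨n', rfl⟩ := hn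
  have hs : (side N (m' + m') (n' + n') : ℤ) = N + m' + n' := by
    unfold side; omega
  unfold Ds
  rw [card_union_of_disjoint, card_image_of_injective _ (fun a b h => by simpa using h),
    card_image_of_injective _ (fun a b h => by simpa using h), card_odd, card_odd]
  · omega
  · rw [disjoint_left]
    intro a ha hb
    simp only [mem_image, mem_filter, mem_range] at ha hb
    obtain ⟨i, hi, rfl⟩ := ha
    obtain ⟨j, hj, hij⟩ := hb
    rw [hs] at hij
    omega

lemma Ds_gap {a : ℤ} (ha : a ∈ Ico (m : ℤ) (2 * (side N m n : ℤ) - x - n)) :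
    a ∉ Ds N m n x := by
  rw [mem_Ico] at ha
  simp only [Ds, mem_union, mem_image, mem_filter, mem_range]
  rintro (⟨i, hi, rfl⟩ | ⟨i, hi, rfl⟩) <;> omega

end

open Classical in
theorem c4c (h1 : StmC1) (h2 : StmC2) : StmC4c := by
  intro N m n x hm hn hx S hS hSc
  have hside : N + (m + n) / 2 = side N m n := rfl
  have hS2 : S ⊆ Ico 0 (2 * (side N m n : ℤ) - x) := by
    intro a ha
    have := mem_Ico.1 (hS ha)
    rw [mem_Ico]
    omega
  have hd : Disjoint (Ds N m n x) S := by
    rw [disjoint_right]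
    intro a ha
    exact Ds_gap (hS ha)
  have hDS : Ds N m n x ∪ S ⊆ Ico 0 (2 * (side N m n : ℤ) - x) :=
    union_subset (Ds_sub hm hn hx) hS2
  have hcard : (Ds N m n x ∪ S).card = side N m n - x := by
    rw [card_union_of_disjoint hd, Ds_card hm hn hx, hSc]
    omega
  have key : chains (upRow N m n x) (dnRow N m n x) (side N m n + x) S =
      chains (upF (side N m n)) (dnF (side N m n)) (side N m n + x) (Ds N m n x ∪ S) := by
    rcases Nat.eq_zero_or_pos (side N m n + x) with h0 | h0
    · rw [h0, chains, chains]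
      have hL : side N m n = 0 := by omega
      have hx0 : x = 0 := by omega
      rw [hL, hx0] at hDS hS2
      have e1 : S = ∅ := by
        rw [← subset_empty]
        simpa using hS2
      have e2 : Ds N m n x ∪ S = ∅ := by
        rw [← subset_empty]
        rw [hx0]
        simpa using hDS
      rw [if_pos e1, if_pos e2]
    · obtain ⟨k, hk⟩ : ∃ k, side N m n + x = k + 1 := ⟨side N m n + x - 1, by omega⟩
      have hdn : Ico 0 (2 * (side N m n : ℤ) - x) ⊆ dnF (side N m n) k := by
        unfold dnF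
        intro a ha
        rw [mem_Ico] at ha
        split_ifs with h
        · rw [mem_Ico]
          omega
        · rw [mem_Ico]
          omega
      rw [hk, chains, chains, upRow_eq (by omega), dnRow_eq' hk.symm,
        if_pos (hDS.trans hdn), if_pos]
      · have e : (dnF (side N m n) k \ Ds N m n x) \ S = dnF (side N m n) k \ (Ds N m n x ∪ S) := by
          ext a
          simp only [mem_sdiff, mem_union]
          tauto
        rw [e]
        refine sum_congr rfl fun T _ => chains_eq (by omega) T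
      · intro a ha
        rw [mem_sdiff]
        exact ⟨hdn (hS2 ha), disjoint_right.1 hd ha⟩
  rw [key, step2 h1 h2 (side N m n) x (by omega) _ hDS hcard]
  congr 1
  unfold Es
  ext a
  simp only [mem_union]
  tauto

end Pool.Agent.K3h24.Loz
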