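import Pool.Agent.K3h88.Loz.Stm

/-!
# Brick C4d: the rows above the line
-/

set_option autoImplicit false

namespace Pool.Agent.K3h24.Loz

open Finset Pool.Agent.K3h88.Loz

lemma cnt_Ico (b t : ℤ) : (cnt (Ico 0 b) t : ℤ) = max 0 (min t b) := by
  unfold cnt
  have : (Ico 0 b).filter (fun a => a < t) = Ico 0 (min t b) := by
    ext a
    simp only [mem_filter, mem_Ico, lt_min_iff]
    tauto
  rw [this, Int.card_Ico]
  omega

lemma cnt_sdiff {A B : Finset ℤ} (h : B ⊆ A) (t : ℤ) : cnt (A \ B) t + cnt B t = cnt A t := by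
  unfold cnt
  rw [← card_union_of_disjoint]
  · congr 1
    ext a
    simp only [mem_union, mem_filter, mem_sdiff]
    constructor
    · rintro (⟨⟨h1, h2⟩, h3⟩ | ⟨h1, h2⟩)
      · exact ⟨h1, h3⟩
      · exact ⟨h h1, h2⟩
    · rintro ⟨h1, h2⟩
      by_cases h3 : a ∈ B
      · exact Or.inr ⟨h3, h2⟩
      · exact Or.inl ⟨⟨h1, h3⟩, h2⟩
  · rw [disjoint_left]
    intro a ha hb
    simp only [mem_filter, mem_sdiff] at ha hb
    exact ha.1.2 hb.1

lemma cnt_zero {A : Finset ℤ} {t : ℤ} (h : ∀ a ∈ A, t ≤ a) : cnt A t = 0 := by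
  unfold cnt
  rw [card_eq_zero, filter_eq_empty_iff]
  intro a ha
  have := h a ha
  omega

lemma cnt_card {A : Finset ℤ} {t : ℤ} (h : ∀ a ∈ A, a < t) : cnt A t = A.card := by
  unfold cnt
  rw [filter_true_of_mem h]

lemma rowOK_iff {M : ℤ} (hM : 0 ≤ M) {P Q : Finset ℤ} (hP : P ⊆ Ico 0 (M + 1))
    (hQ : Q ⊆ Ico 0 M) : rowOK (Ico 0 (M + 1) \ P) (Ico 0 M \ Q) ↔ IL Q P := by
  have cP := card_sdiff_add_card_eq_card hP
  have cQ := card_sdiff_add_card_eq_card hQ
  rw [Int.card_Ico] at cP cQ
  have key : ∀ t : ℤ, (cnt (Ico 0 (M + 1) \ P) t + cnt P t : ℤ) = max 0 (min t (M + 1)) := by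
    intro t
    rw [← cnt_Ico, ← cnt_sdiff hP]
    push_cast
    rfl
  have key2 : ∀ t : ℤ, (cnt (Ico 0 M \ Q) t + cnt Q t : ℤ) = max 0 (min t M) := by
    intro t
    rw [← cnt_Ico, ← cnt_sdiff hQ]
    push_cast
    rfl
  have hP0 : ∀ t ≤ 0, cnt P t = 0 := fun t ht => cnt_zero fun a ha => by
    have := mem_Ico.1 (hP ha); omega
  have hQ0 : ∀ t ≤ 0, cnt Q t = 0 := fun t ht => cnt_zero fun a ha => by
    have := mem_Ico.1 (hQ ha); omega
  have hP1 : ∀ t, M + 1 ≤ t → cnt P t = P.card := fun t ht => cnt_card fun a ha => by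
    have := mem_Ico.1 (hP ha); omega
  have hQ1 : ∀ t, M ≤ t → cnt Q t = Q.card := fun t ht => cnt_card fun a ha => by
    have := mem_Ico.1 (hQ ha); omega
  unfold rowOK IL
  constructor
  · rintro ⟨h1, h2⟩
    have hc : Q.card + 1 = P.card := by omega
    refine ⟨hc, fun t => ?_⟩
    have a1 := key t
    have a2 := key2 t
    have a3 := key (t + 1)
    have := h2 t
    rcases le_or_gt t (-1) with ht | ht
    · have b1 := hP0 t (by omega)
      have b2 := hQ0 t (by omega)
      have b3 := hP0 (t + 1) (by omega)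
      omega
    · rcases le_or_gt t M with ht2 | ht2
      · omega
      · have b1 := hP1 t (by omega)
        have b2 := hQ1 t (by omega)
        have b3 := hP1 (t + 1) (by omega)
        omega
  · rintro ⟨h1, h2⟩
    refine ⟨by omega, fun t => ?_⟩
    have a1 := key t
    have a2 := key2 t
    have a3 := key (t + 1)
    have := h2 t
    rcases le_or_gt t (-1) with ht | ht
    · have b1 := hP0 t (by omega)
      have b2 := hQ0 t (by omega)
      have b3 := hP0 (t + 1) (by omega)
      omega
    · rcases le_or_gt t M with ht2 | ht2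
      · omega
      · have b1 := hP1 t (by omega)
        have b2 := hQ1 t (by omega)
        have b3 := hP1 (t + 1) (by omega)
        omega

open Classical in
/-- one step up: exchange of the sums -/
lemma step (h1 : StmC1) (M : ℤ) (hM : 0 ≤ M) (j : ℕ) (G : Finset ℤ → ℝ) (T : Finset ℤ)
    (hT : T ⊆ Ico 0 (M + 1)) (up : Finset ℤ) (hup : up = Ico 0 (M + 1) \ T) :
    ∑ P ∈ (Ico (0 : ℤ) M).powersetCard j, tt P *
      ∑ S ∈ up.powerset with rowOK (up \ S) (Ico 0 M \ P), G S =
    ∑ S ∈ up.powerset with (T ∪ S).card = j + 1, tt (T ∪ S) * G S := by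
  have e1 : ∀ S ∈ up.powerset, up \ S = Ico 0 (M + 1) \ (T ∪ S) := by
    intro S _
    rw [hup]
    ext a
    simp only [mem_sdiff, mem_union]
    tauto
  have e2 : ∀ S ∈ up.powerset, T ∪ S ⊆ Ico 0 (M + 1) := by
    intro S hS
    refine union_subset hT ((mem_powerset.1 hS).trans ?_)
    rw [hup]
    exact sdiff_subset
  have e3 : ∀ P ∈ (Ico (0 : ℤ) M).powersetCard j, tt P *
      ∑ S ∈ up.powerset with rowOK (up \ S) (Ico 0 M \ P), G S =
      ∑ S ∈ up.powerset, if IL P (T ∪ S) then tt P * G S else 0 := by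
    intro P hP
    rw [mul_sum, sum_filter]
    refine sum_congr rfl fun S hS => ?_
    have : rowOK (up \ S) (Ico 0 M \ P) ↔ IL P (T ∪ S) := by
      rw [e1 S hS]
      exact rowOK_iff hM (e2 S hS) (mem_powersetCard.1 hP).1
    by_cases hh : IL P (T ∪ S)
    · rw [if_pos hh, if_pos (this.2 hh)]
    · rw [if_neg hh, if_neg (fun h => hh (this.1 h))]
  rw [sum_congr rfl e3, sum_comm, sum_filter]
  refine sum_congr rfl fun S hS => ?_
  split_ifs with hc
  · rw [h1 0 (M + 1) (T ∪ S) (e2 S hS) (card_pos.1 (by omega)), sum_mul]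
    rw [← sum_filter]
    have : ((Ico (0 : ℤ) M).powersetCard j).filter (fun P => IL P (T ∪ S)) =
        (Ico (0 : ℤ) (M + 1 - 1)).powerset.filter (fun Y => IL Y (T ∪ S)) := by
      ext P
      simp only [mem_filter, mem_powersetCard, mem_powerset, add_sub_cancel_right]
      constructor
      · rintro ⟨⟨a, b⟩, c⟩
        exact ⟨a, c⟩
      · rintro ⟨a, c⟩
        refine ⟨⟨a, ?_⟩, c⟩
        have := c.1
        omega
    rw [this]
  · refine sum_eq_zero fun P hP => ?_
    rw [if_neg]
    intro h
    have := h.1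
    have := (mem_powersetCard.1 hP).2
    omega

section

variable {N m n x : ℕ}

lemma Us_sub (hm : Even m) (hn : Even n) (hx : x ≤ N) :
    Us N m n x ⊆ Ico 0 (2 * (side N m n : ℤ) - x) := by
  intro a ha
  obtain ⟨m', rfl⟩ := hm
  obtain ⟨n', rfl⟩ := hn
  have hs : (side N (m' + m') (n' + n') : ℤ) = N + m' + n' := by
    unfold side; omega
  simp only [Us, mem_union, mem_image, mem_filter, mem_range] at ha
  rw [mem_Ico]
  rw [hs] at *
  rcases ha with ⟨i, hi, rfl⟩ | ⟨i, hi, rfl⟩ <;> omega

lemma card_even (k : ℕ) : ((range (k + k)).filter (fun i => Even i)).card = k := by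
  induction k with
  | zero => simp
  | succ k ih =>
    rw [show k + 1 + (k + 1) = (k + k) + 1 + 1 by ring, range_add_one, range_add_one,
      filter_insert, filter_insert, if_neg (by simp [parity_simps]), if_pos (by simp),
      card_insert_of_notMem (by simp), ih]

lemma Us_card (hm : Even m) (hn : Even n) (hx : x ≤ N) : (Us N m n x).card = (m + n) / 2 := by
  obtain ⟨m', rfl⟩ := hm
  obtain ⟨n', rfl⟩ := hn
  have hs : (side N (m' + m') (n' + n') : ℤ) = N + m' + n' := by
    unfold side; omega
  unfold Us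
  rw [card_union_of_disjoint, card_image_of_injective _ (fun a b h => by simpa using h),
    card_image_of_injective _ (fun a b h => by simpa using h), card_even, card_even]
  · omega
  · rw [disjoint_left]
    intro a ha hb
    simp only [mem_image, mem_filter, mem_range] at ha hb
    obtain ⟨i, hi, rfl⟩ := ha
    obtain ⟨j, hj, hij⟩ := hb
    rw [hs] at hij
    omega

lemma Us_cover (hm : Even m) (hn : Even n) (hx : x ≤ N) {a : ℤ} (h0 : 0 ≤ a)
    (h1 : a < 2 * (side N m n : ℤ) - x) (hU : a ∉ Us N m n x) (hD : a ∉ Ds N m n x) :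
    a ∈ Ico (m : ℤ) (2 * (side N m n : ℤ) - x - n) := by
  rw [mem_Ico]
  constructor
  · by_contra hlt
    push Not at hlt
    obtain ⟨i, rfl⟩ := Int.eq_ofNat_of_zero_le h0
    have hi : i < m := by exact_mod_cast hlt
    rcases Nat.even_or_odd i with he | he
    · refine hU ?_
      simp only [Us, mem_union, mem_image, mem_filter, mem_range]
      exact Or.inl ⟨i, ⟨hi, he⟩, rfl⟩
    · refine hD ?_
      simp only [Ds, mem_union, mem_image, mem_filter, mem_range]
      exact Or.inl ⟨i, ⟨hi, he⟩, rfl⟩
  · by_contra hlt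
    push Not at hlt
    obtain ⟨i, hi⟩ := Int.eq_ofNat_of_zero_le (show 0 ≤ 2 * (side N m n : ℤ) - x - 1 - a by omega)
    have hi2 : i < n := by
      have : (i : ℤ) < n := by
        have : (Int.ofNat i : ℤ) = i := rfl
        omega
      exact_mod_cast this
    have ha : 2 * (side N m n : ℤ) - x - 1 - i = a := by
      have : (Int.ofNat i : ℤ) = i := rfl
      omega
    rcases Nat.even_or_odd i with he | he
    · refine hU ?_
      simp only [Us, mem_union, mem_image, mem_filter, mem_range]
      exact Or.inr ⟨i, ⟨hi2, he⟩, ha⟩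
    · refine hD ?_
      simp only [Ds, mem_union, mem_image, mem_filter, mem_range]
      exact Or.inr ⟨i, ⟨hi2, he⟩, ha⟩

lemma Us_gap (hm : Even m) (hn : Even n) (hx : x ≤ N) {a : ℤ}
    (ha : a ∈ Ico (m : ℤ) (2 * (side N m n : ℤ) - x - n)) : a ∉ Us N m n x := by
  rw [mem_Ico] at ha
  simp only [Us, mem_union, mem_image, mem_filter, mem_range]
  rintro (⟨i, hi, rfl⟩ | ⟨i, hi, rfl⟩) <;> omega

open Classical in
/-- the value of the chain function on the rows above the line -/
lemma above (h1 : StmC1) (hm : Even m) (hn : Even n) (hx : x ≤ N) (j : ℕ)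
    (hj : j + 1 + x ≤ side N m n) :
    (chains (upRow N m n x) (dnRow N m n x) (2 * side N m n) ∅ : ℝ) =
      ∑ P ∈ (Ico (0 : ℤ) (side N m n + j)).powersetCard j,
        tt P * (chains (upRow N m n x) (dnRow N m n x) (2 * side N m n - j) P : ℝ) := by
  induction j with
  | zero => simp [tt, vd, sf]
  | succ j ih =>
    rw [ih (by omega)]
    obtain ⟨k, hk⟩ : ∃ k, 2 * side N m n - j = k + 1 := ⟨2 * side N m n - j - 1, by omega⟩
    have hk2 : 2 * side N m n - (j + 1) = k := by omega
    rw [hk, hk2]
    have hup : upRow N m n x k = Ico (0 : ℤ) ((side N m n + j : ℤ) + 1) := by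
      unfold upRow
      rw [if_neg (by omega), if_neg (by omega)]
      congr 1
      omega
    have hdn : dnRow N m n x k = Ico (0 : ℤ) (side N m n + j : ℤ) := by
      unfold dnRow
      rw [if_neg (by omega), if_neg (by omega), sdiff_empty]
      congr 1
      omega
    have e : ∀ P ∈ (Ico (0 : ℤ) (side N m n + j)).powersetCard j,
        tt P * (chains (upRow N m n x) (dnRow N m n x) (k + 1) P : ℝ) =
        tt P * ∑ S ∈ (upRow N m n x k).powerset with
          rowOK (upRow N m n x k \ S) (Ico 0 (side N m n + j : ℤ) \ P),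
          (chains (upRow N m n x) (dnRow N m n x) k S : ℝ) := by
      intro P hP
      rw [chains, if_pos (by rw [hdn]; exact (mem_powersetCard.1 hP).1), hdn]
      push_cast
      congr 2
    rw [sum_congr rfl e, step h1 (side N m n + j : ℤ) (by omega) j
      (fun S => (chains (upRow N m n x) (dnRow N m n x) k S : ℝ)) ∅ (empty_subset _)
      (upRow N m n x k) (by rw [hup, sdiff_empty])]
    have : ((upRow N m n x k).powerset.filter fun S => (∅ ∪ S).card = j + 1) =
        (Ico (0 : ℤ) (side N m n + (j + 1 : ℕ))).powersetCard (j + 1) := by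
      ext S
      simp only [mem_filter, mem_powersetCard, mem_powerset, empty_union, hup]
      rw [show (side N m n + j : ℤ) + 1 = side N m n + (j + 1 : ℕ) by push_cast; ring]
    rw [this]
    refine sum_congr rfl fun S _ => ?_
    rw [empty_union]

open Classical in
theorem c4d (h1 : StmC1) : StmC4d := by
  intro N m n x hm hn hx
  have hside : N + (m + n) / 2 = side N m n := rfl
  rcases Nat.eq_or_lt_of_le (show x ≤ side N m n by omega) with he | hlt
  · -- no rows above the line
    obtain ⟨m', rfl⟩ := hm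
    obtain ⟨n', rfl⟩ := hn
    have hm0 : m' = 0 := by omega
    have hn0 : n' = 0 := by omega
    subst hm0 hn0
    have hxN : N - x = 0 := by omega
    have hU : Us N (0 + 0) (0 + 0) x = ∅ := by simp [Us]
    rw [hxN, powersetCard_zero, sum_singleton, hU]
    simp only [union_empty]
    rw [show 2 * side N (0 + 0) (0 + 0) = side N (0 + 0) (0 + 0) + x by omega]
    simp [tt, vd, sf]
  · obtain ⟨j, hj⟩ : ∃ j, side N m n = j + 1 + x := ⟨side N m n - x - 1, by omega⟩
    rw [above h1 hm hn hx j (by omega)]
    rw [show 2 * side N m n - j = side N m n + x + 1 by omega]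
    have hup : upRow N m n x (side N m n + x) =
        Ico (0 : ℤ) ((side N m n + j : ℤ) + 1) \ Us N m n x := by
      unfold upRow
      rw [if_neg (by omega), if_pos rfl]
      congr 2
      omega
    have hdn : dnRow N m n x (side N m n + x) = Ico (0 : ℤ) (side N m n + j : ℤ) := by
      unfold dnRow
      rw [if_neg (by omega), if_neg (by omega), sdiff_empty]
      congr 1
      omega
    have hW : ((side N m n + j : ℤ) + 1) = 2 * (side N m n : ℤ) - x := by omega
    have e : ∀ P ∈ (Ico (0 : ℤ) (side N m n + j)).powersetCard j,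
        tt P * (chains (upRow N m n x) (dnRow N m n x) (side N m n + x + 1) P : ℝ) =
        tt P * ∑ S ∈ (upRow N m n x (side N m n + x)).powerset with
          rowOK (upRow N m n x (side N m n + x) \ S) (Ico 0 (side N m n + j : ℤ) \ P),
          (chains (upRow N m n x) (dnRow N m n x) (side N m n + x) S : ℝ) := by
      intro P hP
      rw [chains, if_pos (by rw [hdn]; exact (mem_powersetCard.1 hP).1), hdn]
      push_cast
      congr 2
    rw [sum_congr rfl e, step h1 (side N m n + j : ℤ) (by omega) j
      (fun S => (chains (upRow N m n x) (dnRow N m n x) (side N m n + x) S : ℝ)) (Us N m n x)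
      (by rw [hW]; exact Us_sub hm hn hx) (upRow N m n x (side N m n + x)) hup]
    symm
    refine sum_subset ?_ ?_
    · intro S hS
      rw [mem_powersetCard] at hS
      rw [mem_filter, mem_powerset, hup, hW]
      have hd : Disjoint (Us N m n x) S := by
        rw [disjoint_right]
        intro a ha
        exact Us_gap hm hn hx (hS.1 ha)
      refine ⟨?_, ?_⟩
      · intro a ha
        have ha2 := mem_Ico.1 (hS.1 ha)
        rw [mem_sdiff, mem_Ico]
        refine ⟨⟨by omega, by omega⟩, Us_gap hm hn hx (hS.1 ha)⟩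
      · rw [card_union_of_disjoint hd, Us_card hm hn hx, hS.2]
        omega
    · intro S hS hS2
      rw [mem_filter, mem_powerset, hup, hW] at hS
      have hd : Disjoint (Us N m n x) S := by
        rw [disjoint_right]
        intro a ha
        exact (mem_sdiff.1 (hS.1 ha)).2
      have hcard := hS.2
      rw [card_union_of_disjoint hd, Us_card hm hn hx] at hcard
      have hz : chains (upRow N m n x) (dnRow N m n x) (side N m n + x) S = 0 := by
        obtain ⟨k, hk⟩ : ∃ k, side N m n + x = k + 1 := ⟨side N m n + x - 1, by omega⟩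
        rw [hk, chains, if_neg]
        intro hsub
        refine hS2 ?_
        rw [mem_powersetCard]
        refine ⟨fun a ha => ?_, by omega⟩
        have ha1 := mem_sdiff.1 (hS.1 ha)
        have ha2 := mem_Ico.1 ha1.1
        refine Us_cover hm hn hx ha2.1 ha2.2 ha1.2 ?_
        have := hsub ha
        unfold dnRow at this
        rw [if_pos hk.symm] at this
        exact (mem_sdiff.1 this).2
      rw [hz]
      simp

end

end Pool.Agent.K3h24.Loz
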